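import Pool.Agent.Lib.MP_bdee7b_an.Defs

namespace Pool.Agent.Lib.MP_bdee7b_an

open Filter Topology Finset

lemma avg_nonneg {u : ℕ → ℝ} (h : ∀ i, 0 ≤ u i) (n : ℕ) : 0 ≤ avg u n := by
  unfold avg
  exact mul_nonneg (by positivity) (Finset.sum_nonneg fun i _ => h i)

lemma avg_le_of_sum_le {u : ℕ → ℝ} {n : ℕ} {c : ℝ} (hc : 0 ≤ c)
    (h : ∑ i ∈ range n, u i ≤ n * c) : avg u n ≤ c := by
  unfold avg
  rcases Nat.eq_zero_or_pos n with rfl | hn
  · simpa using hc
  · have hn' : (0 : ℝ) < n := by exact_mod_cast hn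
    rw [one_div, inv_mul_le_iff₀ hn']
    exact h

lemma sum_eq_mul_avg (u : ℕ → ℝ) (n : ℕ) : ∑ i ∈ range n, u i = n * avg u n := by
  unfold avg
  rcases Nat.eq_zero_or_pos n with rfl | hn
  · simp
  · have hn' : (n : ℝ) ≠ 0 := by exact_mod_cast hn.ne'
    field_simp

lemma avg_le_const {u : ℕ → ℝ} {c : ℝ} (hc : 0 ≤ c) (h : ∀ i, u i ≤ c) (n : ℕ) :
    avg u n ≤ c := by
  apply avg_le_of_sum_le hc
  calc ∑ i ∈ range n, u i ≤ ∑ i ∈ range n, c := Finset.sum_le_sum fun i _ => h i
    _ = n * c := by simp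

lemma avg_le_lin {u v w : ℕ → ℝ} {η C : ℝ} (hη : 0 ≤ η)
    (h : ∀ i, u i ≤ η + C * v i + w i) (n : ℕ) :
    avg u n ≤ η + C * avg v n + avg w n := by
  rcases Nat.eq_zero_or_pos n with rfl | hn
  · simpa [avg] using hη
  · have hn' : (0 : ℝ) < n := by exact_mod_cast hn
    have h1 : ∑ i ∈ range n, u i ≤ ∑ i ∈ range n, (η + C * v i + w i) :=
      Finset.sum_le_sum fun i _ => h i
    rw [Finset.sum_add_distrib, Finset.sum_add_distrib, ← Finset.mul_sum, sum_eq_mul_avg u,
      sum_eq_mul_avg v, sum_eq_mul_avg w] at h1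
    simp only [sum_const, card_range, nsmul_eq_mul] at h1
    have : (n : ℝ) * avg u n ≤ n * (η + C * avg v n + avg w n) := by linarith
    exact le_of_mul_le_mul_left this hn'

lemma exists_bound (X : Type*) [MetricSpace X] [CompactSpace X] :
    ∃ D : ℝ, 0 < D ∧ ∀ a b : X, dist a b ≤ D := by
  obtain ⟨D, hD⟩ := Metric.isBounded_iff.1 (isCompact_univ (X := X)).isBounded
  refine ⟨max D 1, by positivity, fun a b => ?_⟩
  exact (hD (Set.mem_univ a) (Set.mem_univ b)).trans (le_max_left _ _)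

lemma lin_modulus {X Y : Type*} [MetricSpace X] [CompactSpace X] [MetricSpace Y] [CompactSpace Y]
    {p : X → Y} (hp : Continuous p) {η : ℝ} (hη : 0 < η) :
    ∃ C : ℝ, 0 < C ∧ ∀ a b, dist (p a) (p b) ≤ η + C * dist a b := by
  obtain ⟨D, hD0, hD⟩ := exists_bound Y
  obtain ⟨δ, hδ, h⟩ := Metric.uniformContinuous_iff.1
    (CompactSpace.uniformContinuous_of_continuous hp) η hη
  refine ⟨D / δ, by positivity, fun a b => ?_⟩
  by_cases hab : dist a b < δ
  · have := h hab
    have : 0 ≤ D / δ * dist a b := by positivity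
    linarith
  · push_neg at hab
    have h1 : D ≤ D / δ * dist a b := by
      rw [div_mul_eq_mul_div, le_div_iff₀ hδ]
      exact mul_le_mul_of_nonneg_left hab hD0.le
    linarith [hD (p a) (p b)]

lemma trace_one {Y : Type*} [MetricSpace Y] [CompactSpace Y] {g : Y → Y} (hg : Continuous g)
    (j : ℕ) : ∀ η > 0, ∃ C : ℝ, 0 < C ∧ ∀ y : ℕ → Y,
      dist (g^[j] (y 0)) (y j) ≤ η + C * ∑ i ∈ range j, dist (g (y i)) (y (i + 1)) := by
  induction j with
  | zero => intro η hη; exact ⟨1, one_pos, fun y => by simpa using hη.le⟩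
  | succ j ih =>
    intro η hη
    obtain ⟨C', hC', h'⟩ := lin_modulus hg (half_pos hη)
    obtain ⟨C, hC, h⟩ := ih (η / 2 / C') (by positivity)
    refine ⟨C' * C + 1, by positivity, fun y => ?_⟩
    rw [Function.iterate_succ_apply', Finset.sum_range_succ]
    have h1 := h' (g^[j] (y 0)) (y j)
    have h2 := h y
    have h3 := dist_triangle (g (g^[j] (y 0))) (g (y j)) (y (j + 1))
    have hS : 0 ≤ ∑ i ∈ range j, dist (g (y i)) (y (i + 1)) :=
      Finset.sum_nonneg fun i _ => dist_nonneg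
    have he : 0 ≤ dist (g (y j)) (y (j + 1)) := dist_nonneg
    have h4 : C' * dist (g^[j] (y 0)) (y j) ≤
        C' * (η / 2 / C' + C * ∑ i ∈ range j, dist (g (y i)) (y (i + 1))) :=
      mul_le_mul_of_nonneg_left h2 hC'.le
    have h5 : C' * (η / 2 / C') = η / 2 := by field_simp
    have h6 : 0 ≤ C' * C * dist (g (y j)) (y (j + 1)) := by positivity
    nlinarith

lemma trace_le {Y : Type*} [MetricSpace Y] [CompactSpace Y] {g : Y → Y} (hg : Continuous g)
    (L : ℕ) {η : ℝ} (hη : 0 < η) : ∃ C : ℝ, 0 < C ∧ ∀ j < L, ∀ y : ℕ → Y,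
      dist (g^[j] (y 0)) (y j) ≤ η + C * ∑ i ∈ range j, dist (g (y i)) (y (i + 1)) := by
  choose C hC h using fun j => trace_one hg j η hη
  refine ⟨∑ j ∈ range L, C j + 1, ?_, fun j hj y => (h j y).trans ?_⟩
  · have : 0 ≤ ∑ j ∈ range L, C j := Finset.sum_nonneg fun j _ => (hC j).le
    linarith
  · have h1 : C j ≤ ∑ j ∈ range L, C j :=
      Finset.single_le_sum (f := C) (fun j _ => (hC j).le) (Finset.mem_range.2 hj)
    have hS : 0 ≤ ∑ i ∈ range j, dist (g (y i)) (y (i + 1)) :=
      Finset.sum_nonneg fun i _ => dist_nonneg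
    nlinarith

lemma sum_window_le {e : ℕ → ℝ} (he : ∀ i, 0 ≤ e i) {L : ℕ} (hL : 0 < L) (n : ℕ) :
    ∑ i ∈ range n, ∑ t ∈ range (i % L), e (L * (i / L) + t) ≤ L * ∑ j ∈ range n, e j := by
  have key : ∀ i ∈ range n, ∑ t ∈ range (i % L), e (L * (i / L) + t) ≤
      ∑ j ∈ range n, if j < i ∧ i ≤ j + L then e j else 0 := by
    intro i hi
    rw [← Finset.sum_filter]
    have hinj : Set.InjOn (fun t => L * (i / L) + t) (range (i % L) : Set ℕ) := by
      intro a _ b _ hab
      simpa using hab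
    rw [← Finset.sum_image (f := e) hinj]
    apply Finset.sum_le_sum_of_subset_of_nonneg _ (fun j _ _ => he j)
    intro j hj
    simp only [Finset.mem_image, Finset.mem_range, Finset.mem_filter] at hj hi ⊢
    obtain ⟨t, ht, rfl⟩ := hj
    have h1 := Nat.div_add_mod i L
    have h2 := Nat.mod_lt i hL
    omega
  refine (Finset.sum_le_sum key).trans ?_
  rw [Finset.sum_comm, Finset.mul_sum]
  apply Finset.sum_le_sum
  intro j _
  rw [← Finset.sum_filter, Finset.sum_const, nsmul_eq_mul]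
  apply mul_le_mul_of_nonneg_right _ (he j)
  have : (Finset.filter (fun i => j < i ∧ i ≤ j + L) (range n)) ⊆ Finset.Ioc j (j + L) := by
    intro i hi
    simp only [Finset.mem_filter, Finset.mem_Ioc] at hi ⊢
    exact hi.2
  have h := Finset.card_le_card this
  simp only [Nat.card_Ioc, add_tsub_cancel_left] at h
  exact_mod_cast h

lemma card_cuts_le {L : ℕ} (hL : 0 < L) (k n : ℕ) :
    (∑ i ∈ range n, if (i + k + 1) % L = 0 then (1 : ℝ) else 0) ≤ n / L + 1 := by
  rw [← Finset.sum_filter, Finset.sum_const, nsmul_eq_mul, mul_one]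
  have hinj : Set.InjOn (fun i => i / L)
      ((Finset.filter (fun i => (i + k + 1) % L = 0) (range n) : Finset ℕ) : Set ℕ) := by
    intro a ha b hb hab
    simp only [Finset.coe_filter, Finset.mem_range, Set.mem_setOf_eq] at ha hb hab
    have h1 : (a + (k + 1)) % L = (b + (k + 1)) % L := by
      rw [← add_assoc, ← add_assoc, ha.2, hb.2]
    have h2 : a % L = b % L := Nat.ModEq.add_right_cancel' (k + 1) h1
    rw [← Nat.div_add_mod a L, ← Nat.div_add_mod b L, hab, h2]
  have hmaps : Set.MapsTo (fun i => i / L)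
      ((Finset.filter (fun i => (i + k + 1) % L = 0) (range n) : Finset ℕ) : Set ℕ)
      (range (n / L + 1) : Finset ℕ) := by
    intro a ha
    simp only [Finset.coe_filter, Finset.mem_range, Set.mem_setOf_eq, Finset.coe_range,
      Set.mem_Iio] at ha ⊢
    exact Nat.lt_succ_of_le (Nat.div_le_div_right ha.1.le)
  have h := Finset.card_le_card_of_injOn _ hmaps hinj
  simp only [card_range] at h
  have h2 : ((n / L : ℕ) : ℝ) ≤ n / L := Nat.cast_div_le
  have h3 : ((Finset.filter (fun i => (i + k + 1) % L = 0) (range n)).card : ℝ) ≤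
      ((n / L + 1 : ℕ) : ℝ) := by exact_mod_cast h
  push_cast at h3
  linarith

/-- Block lifting. -/
lemma exists_lift {X Y : Type*} [MetricSpace X] [CompactSpace X] [MetricSpace Y] [CompactSpace Y]
    {f : X → X} {g : Y → Y} (hg : Continuous g) {p : X → Y} (hs : Function.Surjective p)
    (hc : p ∘ f = g ∘ p) {θ η : ℝ} (hθ : 0 < θ) (hη : 0 < η) :
    ∃ C : ℝ, 0 < C ∧ ∃ N : ℕ, ∀ y : ℕ → Y, ∃ x : ℕ → X,
      (∀ n ≥ N, ∀ k, avg (fun i => dist (f (x (i + k))) (x (i + k + 1))) n ≤ θ) ∧
      ∀ n, avg (fun i => dist (p (x i)) (y i)) n ≤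
        η + C * avg (fun i => dist (g (y i)) (y (i + 1))) n := by
  obtain ⟨D, hD0, hD⟩ := exists_bound X
  obtain ⟨L, hL⟩ := exists_nat_gt (2 * D / θ)
  have hLr : (0 : ℝ) < L := lt_trans (by positivity) hL
  have hL0 : 0 < L := by exact_mod_cast hLr
  obtain ⟨C, hC, htr⟩ := trace_le hg L hη
  have hsemi : Function.Semiconj p f g := fun a => congrFun hc a
  refine ⟨C * L, by positivity, L, fun y => ?_⟩
  choose s hsp using hs
  refine ⟨fun i => f^[i % L] (s (y (L * (i / L)))), fun n hn k => ?_, fun n => ?_⟩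
  · apply avg_le_of_sum_le hθ.le
    have h1 : ∀ i ∈ range n, dist (f (f^[(i + k) % L] (s (y (L * ((i + k) / L))))))
        (f^[(i + k + 1) % L] (s (y (L * ((i + k + 1) / L))))) ≤
        D * if (i + k + 1) % L = 0 then (1 : ℝ) else 0 := by
      intro i _
      split_ifs with h
      · simpa using hD _ _
      · have e1 : (i + k + 1) / L = (i + k) / L := by
          rw [Nat.succ_div, if_neg, add_zero]
          exact fun hd => h (Nat.mod_eq_zero_of_dvd hd)
        have e2 : (i + k + 1) % L = (i + k) % L + 1 := by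
          have a1 := Nat.div_add_mod (i + k + 1) L
          have a2 := Nat.div_add_mod (i + k) L
          rw [e1] at a1
          omega
        rw [e1, e2, Function.iterate_succ_apply']
        simp
    refine (Finset.sum_le_sum h1).trans ?_
    rw [← Finset.mul_sum]
    have h2 := card_cuts_le hL0 k n
    have hn' : (L : ℝ) ≤ n := by exact_mod_cast hn
    have h3 : (1 : ℝ) ≤ n / L := by rw [le_div_iff₀ hLr]; linarith
    have h4 : 2 * D < L * θ := by rwa [div_lt_iff₀ hθ] at hL
    have h5 : D * (2 * (n / L)) ≤ n * θ := by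
      have : D * (2 * ((n : ℝ) / L)) = n * (2 * D / L) := by ring
      rw [this]
      apply mul_le_mul_of_nonneg_left _ (by positivity)
      rw [div_le_iff₀ hLr]; linarith
    calc D * ∑ i ∈ range n, (if (i + k + 1) % L = 0 then (1 : ℝ) else 0)
        ≤ D * (2 * (n / L)) := mul_le_mul_of_nonneg_left (by linarith) hD0.le
      _ ≤ n * θ := h5
  · have hnn : 0 ≤ avg (fun i => dist (g (y i)) (y (i + 1))) n :=
      avg_nonneg (fun i => dist_nonneg) n
    apply avg_le_of_sum_le (by positivity)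
    have h1 : ∀ i ∈ range n, dist (p (f^[i % L] (s (y (L * (i / L)))))) (y i) ≤
        η + C * ∑ t ∈ range (i % L),
          dist (g (y (L * (i / L) + t))) (y (L * (i / L) + t + 1)) := by
      intro i _
      have := htr (i % L) (Nat.mod_lt i hL0) (fun t => y (L * (i / L) + t))
      simp only [add_zero, Nat.div_add_mod] at this
      rw [(hsemi.iterate_right _).eq, hsp]
      exact this
    refine (Finset.sum_le_sum h1).trans ?_
    rw [Finset.sum_add_distrib, ← Finset.mul_sum]
    have h2 := sum_window_le (e := fun i => dist (g (y i)) (y (i + 1))) (fun i => dist_nonneg) hL0 n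
    rw [sum_eq_mul_avg (fun i => dist (g (y i)) (y (i + 1)))] at h2
    simp only [sum_const, card_range, nsmul_eq_mul]
    have h3 := mul_le_mul_of_nonneg_left h2 hC.le
    nlinarith

end Pool.Agent.Lib.MP_bdee7b_an
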