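import Mathlib

namespace Pool.Agent.Lib.MP_bdee7b_an

open Filter Topology

variable {X : Type*} [MetricSpace X]

/-- The Cesaro mean `(1/n) * (u 0 + ... + u (n-1))`. -/
noncomputable def avg (u : ℕ → ℝ) (n : ℕ) : ℝ :=
  (1 / (n : ℝ)) * ∑ i ∈ Finset.range n, u i

/-- `x` is a `δ`-average-pseudo-orbit of `f`. -/
def IsAvgPseudoOrbit (f : X → X) (δ : ℝ) (x : ℕ → X) : Prop :=
  ∃ N : ℕ, ∀ n ≥ N, ∀ k : ℕ, avg (fun i => dist (f (x (i + k))) (x (i + k + 1))) n < δ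

/-- `z` `ε`-shadows `x` in average. -/
def ShadowsInAvg (f : X → X) (ε : ℝ) (z : X) (x : ℕ → X) : Prop :=
  limsup (avg fun i => dist (f^[i] z) (x i)) atTop < ε

/-- The average shadowing property. -/
def AvgShadowing (f : X → X) : Prop :=
  ∀ ε > 0, ∃ δ > 0, ∀ x : ℕ → X, IsAvgPseudoOrbit f δ x → ∃ z, ShadowsInAvg f ε z x

/-- The asymptotic average shadowing property. -/
def AsympAvgShadowing (f : X → X) : Prop :=
  ∀ x : ℕ → X, Tendsto (avg fun i => dist (f (x i)) (x (i + 1))) atTop (𝓝 0) →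
    ∃ z, Tendsto (avg fun i => dist (f^[i] z) (x i)) atTop (𝓝 0)

end Pool.Agent.Lib.MP_bdee7b_an
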