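import Pool.Agent.Lib.MP_bdee7b_an.Basic

namespace Pool.Agent.Lib.MP_bdee7b_an

open Filter Topology Finset

theorem avgShadowing_factor {X Y : Type*} [MetricSpace X] [CompactSpace X] [MetricSpace Y]
    [CompactSpace Y] {f : X → X} {g : Y → Y} (hg : Continuous g) {p : X → Y}
    (hp : Continuous p) (hs : Function.Surjective p) (hc : p ∘ f = g ∘ p)
    (hX : AvgShadowing f) : AvgShadowing g := by
  intro ε hε
  have hsemi : Function.Semiconj p f g := fun a => congrFun hc a
  obtain ⟨C₁, hC₁, h₁⟩ := lin_modulus hp (η := ε / 8) (by positivity)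
  obtain ⟨δ', hδ', hsh⟩ := hX (ε / 8 / C₁) (by positivity)
  obtain ⟨C₂, hC₂, N₂, h₂⟩ := exists_lift hg hs hc (half_pos hδ') (η := ε / 8) (by positivity)
  refine ⟨ε / 8 / C₂, by positivity, fun y ⟨N, hN⟩ => ?_⟩
  obtain ⟨x, hx, hxy⟩ := h₂ y
  obtain ⟨z, hz⟩ := hsh x ⟨N₂, fun n hn k => (hx n hn k).trans_lt (half_lt_self hδ')⟩
  refine ⟨p z, ?_⟩
  unfold ShadowsInAvg at hz ⊢
  obtain ⟨D, hD0, hD⟩ := exists_bound X
  have hb : IsBoundedUnder (· ≤ ·) atTop (avg fun i => dist (f^[i] z) (x i)) :=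
    isBoundedUnder_of ⟨D, fun n => avg_le_const hD0.le (fun i => hD _ _) n⟩
  have hev := eventually_lt_of_limsup_lt hz hb
  have hco : IsCoboundedUnder (· ≤ ·) atTop (avg fun i => dist (g^[i] (p z)) (y i)) :=
    isCoboundedUnder_le_of_le atTop (x := 0) fun n => avg_nonneg (fun i => dist_nonneg) n
  refine lt_of_le_of_lt (limsup_le_of_le hco (a := ε / 2) ?_) (half_lt_self hε)
  filter_upwards [hev, eventually_ge_atTop N] with n hn hnN
  have h3 := avg_le_lin (u := fun i => dist (g^[i] (p z)) (y i))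
    (v := fun i => dist (f^[i] z) (x i)) (w := fun i => dist (p (x i)) (y i))
    (η := ε / 8) (C := C₁) (by positivity) (fun i => by
      rw [← (hsemi.iterate_right i).eq]
      linarith [dist_triangle (p (f^[i] z)) (p (x i)) (y i), h₁ (f^[i] z) (x i)]) n
  have h4 := hxy n
  have h5 := hN n hnN 0
  simp only [add_zero] at h5
  have h6 : C₁ * avg (fun i => dist (f^[i] z) (x i)) n ≤ ε / 8 := by
    calc _ ≤ C₁ * (ε / 8 / C₁) := mul_le_mul_of_nonneg_left hn.le hC₁.le
      _ = ε / 8 := by field_simp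
  have h7 : C₂ * avg (fun i => dist (g (y i)) (y (i + 1))) n ≤ ε / 8 := by
    calc _ ≤ C₂ * (ε / 8 / C₂) := mul_le_mul_of_nonneg_left h5.le hC₂.le
      _ = ε / 8 := by field_simp
  linarith

lemma tendsto_zero_of_le {u : ℕ → ℝ} (h0 : ∀ n, 0 ≤ u n)
    (h : ∀ ε > 0, ∀ᶠ n in atTop, u n ≤ ε) : Tendsto u atTop (𝓝 0) := by
  rw [Metric.tendsto_nhds]
  intro ε hε
  filter_upwards [h (ε / 2) (half_pos hε)] with n hn
  rw [Real.dist_eq, sub_zero, abs_of_nonneg (h0 n)]
  linarith

/-- Diagonal lemma. -/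
lemma exists_diag {a : ℕ → ℕ → ℝ} {D : ℝ} (h0 : ∀ m i, 0 ≤ a m i) (hD : ∀ m i, a m i ≤ D)
    (h : ∀ m, ∀ᶠ n in atTop, avg (a m) n ≤ 1 / (m + 1 : ℝ)) :
    ∃ μ : ℕ → ℕ, Tendsto (avg fun i => a (μ i) i) atTop (𝓝 0) ∧
      Tendsto (avg fun i => if μ i = μ (i + 1) then (0 : ℝ) else 1) atTop (𝓝 0) := by
  have hD0 : 0 ≤ D := (h0 0 0).trans (hD 0 0)
  simp only [eventually_atTop] at h
  choose M hM using h
  obtain ⟨N, hN0, hNs⟩ : ∃ N : ℕ → ℕ, N 0 = 0 ∧
      ∀ m, N (m + 1) = (m + 1) * (N m + 1) + M m + M (m + 1) :=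
    ⟨fun m => Nat.rec 0 (fun m r => (m + 1) * (r + 1) + M m + M (m + 1)) m, rfl, fun m => rfl⟩
  have hmono : StrictMono N := strictMono_nat_of_lt_succ fun m => by
    rw [hNs]; nlinarith [Nat.zero_le (M m), Nat.zero_le (M (m + 1)), Nat.zero_le (m * (N m + 1))]
  have hex : ∀ i, ∃ m, i < N (m + 1) := fun i =>
    ⟨i, lt_of_lt_of_le (Nat.lt_succ_self i) (hmono.id_le (i + 1))⟩
  classical
  let μ : ℕ → ℕ := fun i => Nat.find (hex i)
  have hμ1 : ∀ i, i < N (μ i + 1) := fun i => Nat.find_spec (hex i)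
  have hμ2 : ∀ i, N (μ i) ≤ i := by
    intro i
    rcases hμ : μ i with _ | m
    · simp [hN0]
    · have := Nat.find_min (hex i) (m := m) (by change m < μ i; omega)
      omega
  have hμeq : ∀ i m, N m ≤ i → i < N (m + 1) → μ i = m := by
    intro i m h1 h2
    have a1 : μ i < m + 1 := hmono.lt_iff_lt.1 (lt_of_le_of_lt (hμ2 i) h2)
    have a2 : m < μ i + 1 := hmono.lt_iff_lt.1 (lt_of_le_of_lt h1 (hμ1 i))
    omega
  have hbig : ∀ K : ℕ, ∀ n ≥ N (K + 1), ∃ m, K ≤ m ∧ N (m + 1) ≤ n ∧ n < N (m + 2) := by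
    intro K n hn
    have a2 : K + 1 < μ n + 1 := hmono.lt_iff_lt.1 (lt_of_le_of_lt hn (hμ1 n))
    obtain ⟨m, hm⟩ : ∃ m, μ n = m + 1 := ⟨μ n - 1, by omega⟩
    refine ⟨m, by omega, hm ▸ hμ2 n, ?_⟩
    have := hμ1 n
    rwa [hm] at this
  have hind : ∀ m n : ℕ, (∑ i ∈ range n, if i < m then (1 : ℝ) else 0) ≤ m := by
    intro m n
    rw [← Finset.sum_filter, Finset.sum_const, nsmul_eq_mul, mul_one]
    have : Finset.filter (fun i => i < m) (range n) ⊆ range m := by
      intro i hi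
      simp only [Finset.mem_filter, Finset.mem_range] at hi ⊢
      exact hi.2
    have := Finset.card_le_card this
    rw [card_range] at this
    exact_mod_cast this
  have hsmall : ∀ m n : ℕ, N (m + 1) ≤ n →
      ((N m : ℕ) : ℝ) + 1 ≤ (n : ℝ) * (1 / ((m : ℝ) + 1)) := by
    intro m n hn
    have : (m + 1) * (N m + 1) ≤ n := by rw [hNs] at hn; omega
    have h' : ((m : ℝ) + 1) * (((N m : ℕ) : ℝ) + 1) ≤ n := by exact_mod_cast this
    rw [mul_one_div, le_div_iff₀ (by positivity)]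
    linarith
  refine ⟨μ, ?_, ?_⟩
  · apply tendsto_zero_of_le (avg_nonneg fun i => h0 _ _)
    intro ε hε
    obtain ⟨K, hK⟩ := exists_nat_gt ((D + 2) / ε)
    filter_upwards [eventually_ge_atTop (N (K + 1))] with n hn
    obtain ⟨m, hKm, hm1, hm2⟩ := hbig K n hn
    apply avg_le_of_sum_le hε.le
    have h1 : ∀ i ∈ range n, a (μ i) i ≤
        D * (if i < N m then (1 : ℝ) else 0) + a m i + a (m + 1) i := by
      intro i hi
      have hi' := Finset.mem_range.1 hi
      split_ifs with hi1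
      · linarith [hD (μ i) i, h0 m i, h0 (m + 1) i]
      · by_cases hi2 : i < N (m + 1)
        · rw [hμeq i m (by omega) hi2]; linarith [h0 (m + 1) i]
        · rw [hμeq i (m + 1) (by omega) (by change i < N (m + 2); omega)]; linarith [h0 m i]
    refine (Finset.sum_le_sum h1).trans ?_
    rw [Finset.sum_add_distrib, Finset.sum_add_distrib, ← Finset.mul_sum, sum_eq_mul_avg (a m),
      sum_eq_mul_avg (a (m + 1))]
    have b1 := hM m n (by rw [hNs] at hm1; omega)
    have b2 := hM (m + 1) n (by rw [hNs] at hm1; omega)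
    have b3 := hind (N m) n
    have b4 := hsmall m n hm1
    have b5 : 1 / (((m + 1 : ℕ) : ℝ) + 1) ≤ 1 / (m + 1 : ℝ) := by
      apply one_div_le_one_div_of_le (by positivity); push_cast; linarith
    have b6 : (D + 2) * (1 / (m + 1 : ℝ)) ≤ ε := by
      have hKm' : (K : ℝ) ≤ m := by exact_mod_cast hKm
      rw [div_lt_iff₀ hε] at hK
      rw [mul_one_div, div_le_iff₀ (by positivity)]
      nlinarith
    have hn0 : (0 : ℝ) ≤ n := by positivity
    have c1 := mul_le_mul_of_nonneg_left b1 hn0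
    have c2 := mul_le_mul_of_nonneg_left (b2.trans b5) hn0
    have c3 := mul_le_mul_of_nonneg_left (b3.trans (by linarith : ((N m : ℕ) : ℝ) ≤
      n * (1 / (m + 1 : ℝ)))) hD0
    have c4 := mul_le_mul_of_nonneg_left b6 hn0
    nlinarith
  · apply tendsto_zero_of_le (avg_nonneg fun i => by split_ifs <;> norm_num)
    intro ε hε
    obtain ⟨K, hK⟩ := exists_nat_gt (1 / ε)
    filter_upwards [eventually_ge_atTop (N (K + 1))] with n hn
    obtain ⟨m, hKm, hm1, hm2⟩ := hbig K n hn
    apply avg_le_of_sum_le hε.le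
    have h1 : ∀ i ∈ range n, (if μ i = μ (i + 1) then (0 : ℝ) else 1) ≤
        (if i < N m then (1 : ℝ) else 0) + (if i = N (m + 1) - 1 then (1 : ℝ) else 0) := by
      intro i hi
      have hi' := Finset.mem_range.1 hi
      by_cases e1 : i < N m
      · simp only [e1, if_true]; split_ifs <;> norm_num
      by_cases e2 : i = N (m + 1) - 1
      · rw [if_neg e1, if_pos e2]; split_ifs <;> norm_num
      have : μ i = μ (i + 1) := by
        by_cases hi2 : i < N (m + 1)
        · rw [hμeq i m (by omega) hi2, hμeq (i + 1) m (by omega) (by omega)]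
        · rw [hμeq i (m + 1) (by omega) (by change i < N (m + 2); omega),
            hμeq (i + 1) (m + 1) (by omega) ?_]
          change i + 1 < N (m + 2)
          omega
      rw [if_pos this, if_neg e1, if_neg e2]; norm_num
    refine (Finset.sum_le_sum h1).trans ?_
    rw [Finset.sum_add_distrib]
    have b3 := hind (N m) n
    have b4 := hsmall m n hm1
    have b5 : (∑ i ∈ range n, if i = N (m + 1) - 1 then (1 : ℝ) else 0) ≤ 1 := by
      rw [Finset.sum_ite_eq']; split_ifs <;> norm_num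
    have b6 : (1 / (m + 1 : ℝ)) ≤ ε := by
      have hKm' : (K : ℝ) ≤ m := by exact_mod_cast hKm
      rw [div_lt_iff₀ hε] at hK
      rw [div_le_iff₀ (by positivity)]
      nlinarith
    have hn0 : (0 : ℝ) ≤ n := by positivity
    have c4 := mul_le_mul_of_nonneg_left b6 hn0
    linarith

theorem asympAvgShadowing_factor {X Y : Type*} [MetricSpace X] [CompactSpace X] [MetricSpace Y]
    [CompactSpace Y] {f : X → X} {g : Y → Y} (hg : Continuous g) {p : X → Y}
    (hp : Continuous p) (hs : Function.Surjective p) (hc : p ∘ f = g ∘ p)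
    (hX : AsympAvgShadowing f) : AsympAvgShadowing g := by
  intro y hy
  have hsemi : Function.Semiconj p f g := fun a => congrFun hc a
  obtain ⟨DX, hDX0, hDX⟩ := exists_bound X
  obtain ⟨DY, hDY0, hDY⟩ := exists_bound Y
  have key : ∀ m : ℕ, ∃ x : ℕ → X, ∀ᶠ n in atTop,
      avg (fun i => dist (f (x i)) (x (i + 1)) + dist (p (x i)) (y i)) n ≤ 1 / (m + 1 : ℝ) := by
    intro m
    have hθ : (0 : ℝ) < 1 / (m + 1 : ℝ) / 4 := by positivity
    obtain ⟨C, hC, N, h⟩ := exists_lift hg hs hc hθ hθ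
    obtain ⟨x, hx, hxy⟩ := h y
    refine ⟨x, ?_⟩
    have hev := (tendsto_order.1 hy).2 (1 / (m + 1 : ℝ) / 4 / C) (by positivity)
    filter_upwards [hev, eventually_ge_atTop N] with n hn hnN
    have h1 := avg_le_lin
      (u := fun i => dist (f (x i)) (x (i + 1)) + dist (p (x i)) (y i))
      (v := fun i => dist (f (x i)) (x (i + 1))) (w := fun i => dist (p (x i)) (y i))
      (η := 0) (C := 1) le_rfl (fun i => by simp) n
    have h2 := hx n hnN 0
    simp only [add_zero] at h2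
    have h3 := hxy n
    have h4 : C * avg (fun i => dist (g (y i)) (y (i + 1))) n ≤ 1 / (m + 1 : ℝ) / 4 := by
      calc _ ≤ C * (1 / (m + 1 : ℝ) / 4 / C) := mul_le_mul_of_nonneg_left hn.le hC.le
        _ = _ := by field_simp
    linarith
  choose xs hxs using key
  obtain ⟨μ, hμ1, hμ2⟩ := exists_diag
    (a := fun m i => dist (f (xs m i)) (xs m (i + 1)) + dist (p (xs m i)) (y i)) (D := DX + DY)
    (fun m i => by positivity) (fun m i => add_le_add (hDX _ _) (hDY _ _)) hxs
  have hpo : Tendsto (avg fun i => dist (f (xs (μ i) i)) (xs (μ (i + 1)) (i + 1))) atTop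
      (𝓝 0) := by
    have hl := (hμ2.const_mul DX).add hμ1
    simp only [mul_zero, add_zero] at hl
    refine squeeze_zero (avg_nonneg fun i => dist_nonneg) (fun n => ?_) hl
    have := avg_le_lin
      (u := fun i => dist (f (xs (μ i) i)) (xs (μ (i + 1)) (i + 1)))
      (v := fun i => if μ i = μ (i + 1) then (0 : ℝ) else 1)
      (w := fun i => dist (f (xs (μ i) i)) (xs (μ i) (i + 1)) + dist (p (xs (μ i) i)) (y i))
      (η := 0) (C := DX) le_rfl (fun i => by
        split_ifs with h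
        · rw [← h]; simp
        · have := hDX (f (xs (μ i) i)) (xs (μ (i + 1)) (i + 1))
          have h1 : 0 ≤ dist (f (xs (μ i) i)) (xs (μ i) (i + 1)) + dist (p (xs (μ i) i)) (y i) :=
            by positivity
          linarith) n
    simpa using this
  obtain ⟨z, hz⟩ := hX (fun i => xs (μ i) i) hpo
  refine ⟨p z, ?_⟩
  apply tendsto_zero_of_le (avg_nonneg fun i => dist_nonneg)
  intro ε hε
  obtain ⟨C₁, hC₁, h₁⟩ := lin_modulus hp (half_pos hε)
  have hl := (hz.const_mul C₁).add hμ1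
  simp only [mul_zero, add_zero] at hl
  filter_upwards [(tendsto_order.1 hl).2 (ε / 2) (half_pos hε)] with n hn
  have h3 := avg_le_lin (u := fun i => dist (g^[i] (p z)) (y i))
    (v := fun i => dist (f^[i] z) (xs (μ i) i))
    (w := fun i => dist (f (xs (μ i) i)) (xs (μ i) (i + 1)) + dist (p (xs (μ i) i)) (y i))
    (η := ε / 2) (C := C₁) (by positivity) (fun i => by
      rw [← (hsemi.iterate_right i).eq]
      linarith [dist_triangle (p (f^[i] z)) (p (xs (μ i) i)) (y i), h₁ (f^[i] z) (xs (μ i) i),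
        dist_nonneg (x := f (xs (μ i) i)) (y := xs (μ i) (i + 1))]) n
  linarith

end Pool.Agent.Lib.MP_bdee7b_an
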