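import Pool.Agent.Lib.MP_bdee7b_an.SepLev

namespace Pool.Agent.Lib.MP_bdee7b_an.Sep

open Finset

open Classical in
/-- Number of positions of the window `[t, t + n)` with property `P`. -/
noncomputable def wc (P : ℤ → Prop) (t : ℤ) (n : ℕ) : ℕ :=
  ((range n).filter (fun i : ℕ => P (t + i))).card

lemma wc_le (P : ℤ → Prop) (t : ℤ) (n : ℕ) : wc P t n ≤ n := by
  classical
  unfold wc
  exact (card_filter_le _ _).trans (by simp)

lemma wc_succ_of (P : ℤ → Prop) (t : ℤ) (n : ℕ) (h : P (t + n)) :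
    wc P t (n + 1) = wc P t n + 1 := by
  unfold wc
  rw [range_add_one, filter_insert, if_pos h, card_insert_of_notMem (by simp)]

lemma wc_succ_of_not (P : ℤ → Prop) (t : ℤ) (n : ℕ) (h : ¬ P (t + n)) :
    wc P t (n + 1) = wc P t n := by
  unfold wc
  rw [range_add_one, filter_insert, if_neg h]

lemma wc_add (P : ℤ → Prop) (t : ℤ) (n k : ℕ) :
    wc P t (n + k) = wc P t n + wc P (t + n) k := by
  induction k with
  | zero => simp [wc]
  | succ k ih =>
    have e : t + ((n + k : ℕ) : ℤ) = t + n + k := by push_cast; ring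
    by_cases h : P (t + n + k)
    · rw [← add_assoc, wc_succ_of P t (n + k) (e ▸ h), wc_succ_of P _ k h, ih]; ring
    · rw [← add_assoc, wc_succ_of_not P t (n + k) (e ▸ h), wc_succ_of_not P _ k h, ih]

lemma wc_mono_len (P : ℤ → Prop) (t : ℤ) {n k : ℕ} (h : n ≤ k) : wc P t n ≤ wc P t k := by
  obtain ⟨d, rfl⟩ := Nat.exists_eq_add_of_le h
  rw [wc_add]; omega

lemma wc_mono {P Q : ℤ → Prop} (t : ℤ) (n : ℕ) (h : ∀ i : ℕ, i < n → P (t + i) → Q (t + i)) :
    wc P t n ≤ wc Q t n := by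
  unfold wc
  apply card_le_card
  intro i hi
  simp only [mem_filter, mem_range] at hi ⊢
  exact ⟨hi.1, h i hi.1 hi.2⟩

lemma wc_or (P Q : ℤ → Prop) (t : ℤ) (n : ℕ) :
    wc (fun s => P s ∨ Q s) t n ≤ wc P t n + wc Q t n := by
  induction n with
  | zero => simp [wc]
  | succ n ih =>
    by_cases hP : P (t + n) <;> by_cases hQ : Q (t + n)
    · rw [wc_succ_of _ t n (Or.inl hP), wc_succ_of P t n hP, wc_succ_of Q t n hQ]; omega
    · rw [wc_succ_of _ t n (Or.inl hP), wc_succ_of P t n hP, wc_succ_of_not Q t n hQ]; omega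
    · rw [wc_succ_of _ t n (Or.inr hQ), wc_succ_of_not P t n hP, wc_succ_of Q t n hQ]; omega
    · rw [wc_succ_of_not _ t n (fun h => h.elim hP hQ), wc_succ_of_not P t n hP,
        wc_succ_of_not Q t n hQ]; omega

lemma wc_disj {P Q : ℤ → Prop} (h : ∀ s, P s → Q s → False) (t : ℤ) (n : ℕ) :
    wc P t n + wc Q t n ≤ n := by
  induction n with
  | zero => simp [wc]
  | succ n ih =>
    by_cases hP : P (t + n) <;> by_cases hQ : Q (t + n)
    · exact (h _ hP hQ).elim
    · rw [wc_succ_of P t n hP, wc_succ_of_not Q t n hQ]; omega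
    · rw [wc_succ_of_not P t n hP, wc_succ_of Q t n hQ]; omega
    · rw [wc_succ_of_not P t n hP, wc_succ_of_not Q t n hQ]; omega

lemma wc_cover {P Q : ℤ → Prop} (t : ℤ) (n : ℕ) (h : ∀ i : ℕ, i < n → P (t + i) ∨ Q (t + i)) :
    n ≤ wc P t n + wc Q t n := by
  induction n with
  | zero => simp
  | succ n ih =>
    have ih' := ih (fun i hi => h i (by omega))
    by_cases hP : P (t + n) <;> by_cases hQ : Q (t + n)
    · rw [wc_succ_of P t n hP, wc_succ_of Q t n hQ]; omega
    · rw [wc_succ_of P t n hP, wc_succ_of_not Q t n hQ]; omega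
    · rw [wc_succ_of_not P t n hP, wc_succ_of Q t n hQ]; omega
    · exact ((h n (by omega)).elim hP hQ).elim

lemma exists_of_wc_pos {P : ℤ → Prop} {t : ℤ} {n : ℕ} (h : 0 < wc P t n) :
    ∃ i : ℕ, i < n ∧ P (t + i) := by
  unfold wc at h
  obtain ⟨i, hi⟩ := card_pos.1 h
  simp only [mem_filter, mem_range] at hi
  exact ⟨i, hi⟩

lemma wc_pos {P : ℤ → Prop} {t : ℤ} {n i : ℕ} (hi : i < n) (h : P (t + i)) : 0 < wc P t n := by
  unfold wc
  exact card_pos.2 ⟨i, by simp [hi, h]⟩

lemma wc_mul (P : ℤ → Prop) (t : ℤ) (T k : ℕ) :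
    wc P t (k * T) = ∑ l ∈ range k, wc P (t + (l * T : ℕ)) T := by
  induction k with
  | zero => simp [wc]
  | succ k ih => rw [Nat.succ_mul, wc_add, ih, sum_range_succ]

lemma wc_le_of_window {P : ℤ → Prop} {W c : ℕ} (hW : 0 < W) (h : ∀ t, wc P t W ≤ c) (t : ℤ)
    (n : ℕ) : wc P t n ≤ (n / W + 1) * c := by
  have h1 : n ≤ (n / W + 1) * W := by
    have := Nat.div_add_mod n W
    have := Nat.mod_lt n hW
    nlinarith
  refine (wc_mono_len P t h1).trans ?_
  rw [wc_mul]
  exact (sum_le_sum fun l _ => h _).trans (by simp)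

lemma cnt_eq_wc (a : Fin 3) (x : Sq) (t : ℤ) (n : ℕ) : cnt a x t n = wc (fun s => x s = a) t n := by
  unfold cnt wc
  congr 1
  ext i
  simp

/-- A window starts at a position with property `P` or has none. -/
lemma wc_le_of_start {P Q : ℤ → Prop} {n c : ℕ} (hPQ : ∀ s, P s → Q s)
    (h : ∀ s, P s → wc Q s n ≤ c) (t : ℤ) : wc P t n ≤ c := by
  classical
  rcases Nat.eq_zero_or_pos (wc P t n) with h0 | h0
  · omega
  have hex := exists_of_wc_pos h0
  obtain ⟨hi1, hi2⟩ := Nat.find_spec hex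
  set i := Nat.find hex with hi
  have h1 : wc P t i = 0 := by
    by_contra hne
    obtain ⟨l, l1, l2⟩ := exists_of_wc_pos (Nat.pos_of_ne_zero hne)
    exact Nat.find_min hex l1 ⟨by omega, l2⟩
  calc wc P t n ≤ wc P t (i + n) := wc_mono_len P t (by omega)
    _ = wc P (t + i) n := by rw [wc_add, h1, zero_add]
    _ ≤ wc Q (t + i) n := wc_mono _ _ fun l _ hl => hPQ _ hl
    _ ≤ c := h _ hi2

lemma scale_step {x : Sq} {j c : ℕ} {E : ℤ → Prop} (hE : ∀ s, E s → Sc j x s)
    (hc : ∀ t, wc E t (16 ^ j) ≤ c) {s : ℤ} (hs : Sc (j + 1) x s) :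
    wc E s (16 ^ (j + 1)) ≤ 8 * c := by
  classical
  set T := 16 ^ j with hT
  have hT0 : 0 < T := by positivity
  have e16 : 16 ^ (j + 1) = 16 * T := by rw [pow_succ]; ring
  set A : ℤ → Prop := fun u => x u = sy j with hA
  have h1 : 8 * wc A s (16 * T) ≤ 16 * T := by
    unfold Sc at hs
    rw [cnt_eq_wc, e16] at hs
    have := wc_disj (P := A) (Q := fun u => x u = sy (j + 1))
      (fun u a b => sy_succ_ne j (b.symm.trans a)) s (16 * T)
    omega
  set a : ℕ → ℕ := fun l => wc A (s + (l * T : ℕ)) T with ha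
  set B := (range 15).filter (fun l => 0 < wc E (s + (l * T : ℕ)) T) with hB
  have h2 : ∀ l ∈ B, 7 * T ≤ 8 * (a l + a (l + 1)) := by
    intro l hl
    obtain ⟨i, i1, i2⟩ := exists_of_wc_pos (mem_filter.1 hl).2
    have h3 := hE _ i2
    unfold Sc at h3
    rw [cnt_eq_wc, ← hT] at h3
    have h4 : wc A (s + (l * T : ℕ)) (i + T) ≤ wc A (s + (l * T : ℕ)) (T + T) :=
      wc_mono_len _ _ (by omega)
    rw [wc_add, wc_add] at h4
    have h5 : s + ((l * T : ℕ) : ℤ) + (T : ℕ) = s + (((l + 1) * T : ℕ) : ℤ) := by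
      push_cast; ring
    rw [h5] at h4
    simp only [ha]
    change 7 * T ≤ 8 * wc A _ T at h3
    omega
  have h6 : ∑ l ∈ range 16, a l = wc A s (16 * T) := (wc_mul A s T 16).symm
  have h7 : B.card * (7 * T) ≤ 8 * (2 * wc A s (16 * T)) := by
    calc B.card * (7 * T) = ∑ _l ∈ B, 7 * T := by simp
      _ ≤ ∑ l ∈ B, 8 * (a l + a (l + 1)) := sum_le_sum h2
      _ ≤ ∑ l ∈ range 15, 8 * (a l + a (l + 1)) :=
        sum_le_sum_of_subset (filter_subset _ _)
      _ = 8 * (∑ l ∈ range 15, a l + ∑ l ∈ range 15, a (l + 1)) := by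
        rw [← mul_sum, sum_add_distrib]
      _ ≤ 8 * (2 * wc A s (16 * T)) := by
        have b1 := sum_range_succ a 15
        have b2 := sum_range_succ' a 15
        change ∑ l ∈ range 16, a l = _ at b1 b2
        omega
  have h8 : B.card ≤ 7 := by
    by_contra hlt
    have : 8 * (7 * T) ≤ B.card * (7 * T) := Nat.mul_le_mul_right _ (by omega)
    omega
  rw [e16, wc_mul, sum_range_succ]
  have h9 : ∑ l ∈ range 15, wc E (s + (l * T : ℕ)) T ≤ B.card * c := by
    rw [← sum_filter_add_sum_filter_not (range 15) (fun l => 0 < wc E (s + (l * T : ℕ)) T)]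
    have z : ∑ l ∈ (range 15).filter (fun l => ¬ 0 < wc E (s + (l * T : ℕ)) T),
        wc E (s + (l * T : ℕ)) T = 0 :=
      sum_eq_zero fun l hl => by have := (mem_filter.1 hl).2; omega
    rw [z, add_zero]
    exact (sum_le_sum fun l _ => hc _).trans (by simp [hB])
  have h10 := hc (s + (15 * T : ℕ))
  have h11 : B.card * c ≤ 7 * c := Nat.mul_le_mul_right _ h8
  omega

lemma scales_le (x : Sq) (m r : ℕ) : ∀ t,
    wc (fun s => ∀ j, m ≤ j → j ≤ m + r → Sc j x s) t (16 ^ (m + r)) ≤ 16 ^ m * 8 ^ r := by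
  induction r with
  | zero => intro t; simpa using wc_le _ t _
  | succ r ih =>
    apply wc_le_of_start (Q := fun s => ∀ j, m ≤ j → j ≤ m + r → Sc j x s)
    · exact fun s hs j a b => hs j a (by omega)
    · intro s hs
      have := scale_step (x := x) (j := m + r) (fun u hu => hu (m + r) (by omega) le_rfl) ih
        (hs (m + r + 1) (by omega) (by omega))
      rw [pow_succ 8]
      change wc _ s (16 ^ (m + r + 1)) ≤ _
      nlinarith

lemma pat_window (x : Sq) (m : ℕ) (t : ℤ) : wc (Pat m x) t (GG m) ≤ 16 ^ m * 8 ^ m := by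
  have := scales_le x m m t
  rw [← two_mul] at this
  exact (wc_mono _ _ fun i _ hi => hi.2).trans this

lemma mod_window {L g : ℕ} (hL : 0 < L) (t : ℤ) : wc (fun s => s % L < g) t L ≤ g := by
  classical
  unfold wc
  have hL' : (0 : ℤ) < L := by exact_mod_cast hL
  have : ((range L).filter (fun i : ℕ => (t + i) % L < g)).card ≤ (range g).card := by
    apply card_le_card_of_injOn (fun i : ℕ => ((t + i) % L).toNat)
    · intro i hi
      simp only [coe_filter, mem_range, Set.mem_ofPred_eq, coe_range, Set.mem_Iio] at hi ⊢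
      have := Int.emod_nonneg (t + i) hL'.ne'
      omega
    · intro a ha b hb hab
      simp only [coe_filter, mem_range, Set.mem_ofPred_eq] at ha hb hab
      have a1 := Int.emod_nonneg (t + a) hL'.ne'
      have b1 := Int.emod_nonneg (t + b) hL'.ne'
      have h1 : (t + a) % L = (t + b) % L := by omega
      have h2 : (a : ℤ) % L = b % L := Int.ModEq.add_left_cancel' t h1
      rw [Int.emod_eq_of_lt (by omega) (by omega), Int.emod_eq_of_lt (by omega) (by omega)] at h2
      omega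
  simpa using this

/-- Bad positions are rare. -/
lemma bad_le (x : Sq) (m : ℕ) (t : ℤ) (n : ℕ) :
    2 ^ m * wc (fun s => Pat m x s ∨ s % (NN m) < GG m) t n ≤ 2 * n + 2 ^ m * (2 * GG m) := by
  have h1 := wc_or (Pat m x) (fun s => s % (NN m) < GG m) t n
  have h2 := wc_le_of_window (GG_pos m) (pat_window x m) t n
  have h3 := wc_le_of_window (NN_pos m) (mod_window (g := GG m) (NN_pos m)) t n
  have e1 : 2 ^ m * (16 ^ m * 8 ^ m) = GG m := by
    unfold GG
    rw [two_mul, pow_add, mul_left_comm, ← mul_pow]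
    norm_num
  have e2 : 2 ^ m * GG m ≤ NN m := by
    unfold GG NN
    rw [show 3 * m = m + 2 * m by ring, pow_add]
    exact Nat.mul_le_mul_right _ (Nat.pow_le_pow_left (by norm_num) m)
  have e3 : n / GG m * GG m ≤ n := Nat.div_mul_le_self _ _
  have e4 : n / NN m * NN m ≤ n := Nat.div_mul_le_self _ _
  have e5 : 1 ≤ 2 ^ m := Nat.one_le_two_pow
  have f1 : 2 ^ m * ((n / GG m + 1) * (16 ^ m * 8 ^ m)) ≤ n + 2 ^ m * GG m := by
    rw [mul_left_comm, e1]
    nlinarith
  have f2 : 2 ^ m * ((n / NN m + 1) * GG m) ≤ n + 2 ^ m * GG m := by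
    have := Nat.mul_le_mul_left (n / NN m) e2
    nlinarith
  have f3 := Nat.mul_le_mul_left (2 ^ m) (h1.trans (add_le_add h2 h3))
  nlinarith

end Pool.Agent.Lib.MP_bdee7b_an.Sep
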