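import Mathlib

namespace Pool.Agent.Lib.MP_bdee7b_an.Sep

open Finset

/-- Two-sided sequences over three letters; the letter `2` is the blank. -/
abbrev Sq := ℤ → Fin 3

def cut (x : Sq) (p q : ℤ) : Sq := fun i => if p ≤ i ∧ i ≤ q then x i else 2

def sh (k : ℤ) (x : Sq) : Sq := fun i => x (i + k)

/-- `y` is obtained from `x` by blanking letters. -/
def Bl (y x : Sq) : Prop := ∀ i, y i = x i ∨ y i = 2

def sy (j : ℕ) : Fin 3 := if j % 2 = 0 then 0 else 1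

def cnt (a : Fin 3) (x : Sq) (t : ℤ) (n : ℕ) : ℕ :=
  ((range n).filter (fun i : ℕ => x (t + i) = a)).card

def Sc (j : ℕ) (x : Sq) (t : ℤ) : Prop := 7 * 16 ^ j ≤ 8 * cnt (sy j) x t (16 ^ j)

def Pat (m : ℕ) (x : Sq) (t : ℤ) : Prop := x t ≠ 2 ∧ ∀ j, m ≤ j → j ≤ 2 * m → Sc j x t

def Gap (g : ℕ) (x : Sq) (p q : ℤ) : Prop :=
  ∃ s : ℤ, p ≤ s ∧ s + g ≤ q ∧ ∀ i, s ≤ i → i < s + g → x i = 2

def GG (m : ℕ) : ℕ := 16 ^ (2 * m)

def NN (m : ℕ) : ℕ := 16 ^ (3 * m)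

def Lev : ℕ → Sq → Prop
  | 0, x => ¬ ((∃ i, x i = 0) ∧ ∃ j, x j = 1)
  | m + 1, x => Lev m x ∨
      ((∀ p q : ℤ, x p ≠ 2 → x q ≠ 2 → p ≤ q → ¬ Gap (GG (m + 1)) x p q →
        q < p + NN (m + 1) ∧ Lev m (cut x p q)) ∧ ∀ t, ¬ Pat (m + 1) x t)

def XS : Set Sq := {x | ∀ p q : ℤ, ∃ m, Lev m (cut x p q)}

lemma sy_ne (j : ℕ) : sy j ≠ 2 := by
  unfold sy; split_ifs <;> decide

lemma sy_succ_ne (j : ℕ) : sy (j + 1) ≠ sy j := by
  unfold sy
  rcases Nat.mod_two_eq_zero_or_one j with h | h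
  · have : (j + 1) % 2 = 1 := by omega
    simp [h, this]
  · have : (j + 1) % 2 = 0 := by omega
    simp [h, this]

lemma GG_pos (m : ℕ) : 0 < GG m := by unfold GG; positivity

lemma NN_pos (m : ℕ) : 0 < NN m := by unfold NN; positivity

lemma GG_mono {m n : ℕ} (h : m ≤ n) : GG m ≤ GG n :=
  Nat.pow_le_pow_right (by norm_num) (by omega)

lemma NN_mono {m n : ℕ} (h : m ≤ n) : NN m ≤ NN n :=
  Nat.pow_le_pow_right (by norm_num) (by omega)

lemma Bl.refl (x : Sq) : Bl x x := fun _ => Or.inl rfl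

lemma bl_cut (x : Sq) (p q : ℤ) : Bl (cut x p q) x := by
  intro i; unfold cut; split_ifs <;> simp

lemma Bl.cut {y x : Sq} (h : Bl y x) (p q : ℤ) : Bl (cut y p q) (cut x p q) := by
  intro i; unfold Sep.cut; split_ifs
  · exact h i
  · simp

lemma Bl.eq_of_ne {y x : Sq} (h : Bl y x) {i : ℤ} (hi : y i ≠ 2) : x i = y i := by
  rcases h i with h | h
  · exact h.symm
  · exact absurd h hi

lemma Bl.cnt {y x : Sq} (h : Bl y x) {a : Fin 3} (ha : a ≠ 2) (t : ℤ) (n : ℕ) :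
    cnt a y t n ≤ cnt a x t n := by
  unfold Sep.cnt
  apply card_le_card
  intro i hi
  simp only [mem_filter] at hi ⊢
  refine ⟨hi.1, ?_⟩
  rw [h.eq_of_ne (by rw [hi.2]; exact ha), hi.2]

lemma Bl.pat {y x : Sq} (h : Bl y x) {m : ℕ} {t : ℤ} (hp : Pat m y t) : Pat m x t := by
  refine ⟨by rw [h.eq_of_ne hp.1]; exact hp.1, fun j h1 h2 => ?_⟩
  have := hp.2 j h1 h2
  have h3 := h.cnt (sy_ne j) t (16 ^ j)
  unfold Sc at this ⊢
  omega

lemma Bl.gap {y x : Sq} (h : Bl y x) {g : ℕ} {p q : ℤ} (hg : Gap g x p q) : Gap g y p q := by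
  obtain ⟨s, h1, h2, h3⟩ := hg
  refine ⟨s, h1, h2, fun i a b => ?_⟩
  rcases h i with h | h
  · rw [h]; exact h3 i a b
  · exact h

lemma Lev.bl : ∀ {m : ℕ} {x y : Sq}, Lev m x → Bl y x → Lev m y
  | 0, x, y, hx, h => by
    rintro ⟨⟨i, hi⟩, j, hj⟩
    refine hx ⟨⟨i, ?_⟩, j, ?_⟩
    · rw [h.eq_of_ne (by rw [hi]; decide), hi]
    · rw [h.eq_of_ne (by rw [hj]; decide), hj]
  | m + 1, x, y, hx, h => by
    rcases hx with hx | ⟨h1, h2⟩
    · exact Or.inl (Lev.bl hx h)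
    · refine Or.inr ⟨fun p q hp hq hpq hg => ?_, fun t ht => h2 t (h.pat ht)⟩
      obtain ⟨a, b⟩ := h1 p q (by rw [h.eq_of_ne hp]; exact hp) (by rw [h.eq_of_ne hq]; exact hq)
        hpq (fun hg' => hg (h.gap hg'))
      exact ⟨a, Lev.bl b (h.cut p q)⟩

lemma Lev.mono {m n : ℕ} {x : Sq} (h : Lev m x) (hmn : m ≤ n) : Lev n x := by
  induction n, hmn using Nat.le_induction with
  | base => exact h
  | succ n _ ih => exact Or.inl ih

lemma cut_sh (k : ℤ) (x : Sq) (p q : ℤ) : cut (sh k x) p q = sh k (cut x (p + k) (q + k)) := by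
  funext i
  simp only [cut, sh, add_le_add_iff_right]

lemma cnt_sh (a : Fin 3) (k : ℤ) (x : Sq) (t : ℤ) (n : ℕ) :
    cnt a (sh k x) t n = cnt a x (t + k) n := by
  unfold cnt sh
  congr 1
  ext i
  simp only [mem_filter, show t + i + k = t + k + i by ring]

lemma Lev.sh (k : ℤ) : ∀ {m : ℕ} {x : Sq}, Lev m x → Lev m (sh k x)
  | 0, x, hx => by
    rintro ⟨⟨i, hi⟩, j, hj⟩
    exact hx ⟨⟨_, hi⟩, _, hj⟩
  | m + 1, x, hx => by
    rcases hx with hx | ⟨h1, h2⟩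
    · exact Or.inl (Lev.sh k hx)
    · refine Or.inr ⟨fun p q hp hq hpq hg => ?_, fun t ht => h2 (t + k) ⟨ht.1, fun j a b => ?_⟩⟩
      · obtain ⟨a, b⟩ := h1 (p + k) (q + k) hp hq (by omega) (by
          rintro ⟨s, s1, s2, s3⟩
          refine hg ⟨s - k, by omega, by omega, fun i i1 i2 => ?_⟩
          exact s3 (i + k) (by omega) (by omega))
        refine ⟨by omega, ?_⟩
        rw [cut_sh]
        exact Lev.sh k b
      · have := ht.2 j a b
        unfold Sc at this ⊢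
        rwa [cnt_sh] at this

lemma sh_mem {x : Sq} (hx : x ∈ XS) (k : ℤ) : sh k x ∈ XS := by
  intro p q
  obtain ⟨m, hm⟩ := hx (p + k) (q + k)
  exact ⟨m, by rw [cut_sh]; exact hm.sh k⟩

lemma Lev.mem {m : ℕ} {x : Sq} (h : Lev m x) : x ∈ XS :=
  fun p q => ⟨m, h.bl (bl_cut x p q)⟩

lemma const_mem (j : ℕ) : (fun _ => sy j : Sq) ∈ XS := by
  apply Lev.mem (m := 0)
  rintro ⟨⟨i, hi⟩, k, hk⟩
  simp only at hi hk
  rw [hi] at hk
  exact absurd hk (by decide)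

lemma cut_cut (x : Sq) (p q : ℤ) : cut (cut x p q) p q = cut x p q := by
  funext i
  simp only [cut]
  split_ifs <;> rfl

lemma cut_apply {x : Sq} {p q i : ℤ} (h1 : p ≤ i) (h2 : i ≤ q) : cut x p q i = x i := by
  simp [cut, h1, h2]

lemma gap_cut {g : ℕ} {x : Sq} {p q p' q' : ℤ} (h1 : p ≤ p') (h2 : q' ≤ q)
    (h : Gap g (cut x p q) p' q') : Gap g x p' q' := by
  obtain ⟨s, s1, s2, s3⟩ := h
  refine ⟨s, s1, s2, fun i a b => ?_⟩
  rw [← cut_apply (x := x) (p := p) (q := q) (by omega) (by omega)]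
  exact s3 i a b

lemma Gap.anti {g g' : ℕ} {x : Sq} {p q : ℤ} (h : Gap g x p q) (hg : g' ≤ g) : Gap g' x p q := by
  obtain ⟨s, s1, s2, s3⟩ := h
  have : (g' : ℤ) ≤ g := by exact_mod_cast hg
  exact ⟨s, s1, by omega, fun i a b => s3 i a (by omega)⟩

/-- A piece without a long blank run has low level. -/
lemma Lev.piece (m : ℕ) {p q : ℤ} (hpq : p ≤ q) : ∀ {j : ℕ} {v : Sq}, Lev j v → v p ≠ 2 →
    v q ≠ 2 → ¬ Gap (GG (m + 1)) v p q → Lev m (cut v p q)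
  | 0, v, h, _, _, _ => (h.bl (bl_cut v p q)).mono (Nat.zero_le m)
  | j + 1, v, h, hp, hq, hg => by
    by_cases hj : j + 1 ≤ m
    · exact (h.bl (bl_cut v p q)).mono hj
    · rcases h with h | ⟨h1, _⟩
      · exact Lev.piece m hpq h hp hq hg
      · obtain ⟨_, b⟩ := h1 p q hp hq hpq (fun hg' => hg (hg'.anti (GG_mono (by omega))))
        have := Lev.piece m hpq b (by rw [cut_apply le_rfl hpq]; exact hp)
          (by rw [cut_apply hpq le_rfl]; exact hq) (fun hg' => hg (gap_cut le_rfl le_rfl hg'))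
        rwa [cut_cut] at this

lemma piece_of_mem (m : ℕ) {p q : ℤ} (hpq : p ≤ q) {v : Sq} (hv : v ∈ XS) (hp : v p ≠ 2)
    (hq : v q ≠ 2) (hg : ¬ Gap (GG (m + 1)) v p q) : Lev m (cut v p q) := by
  obtain ⟨j, hj⟩ := hv p q
  have := Lev.piece m hpq hj (by rw [cut_apply le_rfl hpq]; exact hp)
    (by rw [cut_apply hpq le_rfl]; exact hq) (fun hg' => hg (gap_cut le_rfl le_rfl hg'))
  rwa [cut_cut] at this

lemma isClosed_XS : IsClosed XS := by
  rw [← isOpen_compl_iff, isOpen_iff_forall_mem_open]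
  intro x hx
  simp only [XS, Set.mem_compl_iff, Set.mem_ofPred_eq, not_forall] at hx
  obtain ⟨p, q, hpq⟩ := hx
  refine ⟨⋂ i ∈ Finset.Icc p q, {y : Sq | y i = x i}, ?_, ?_, ?_⟩
  · intro y hy hy'
    apply hpq
    have : cut y p q = cut x p q := by
      funext i
      simp only [cut]
      split_ifs with h
      · simp only [Set.mem_iInter, Set.mem_ofPred_eq] at hy
        exact hy i (Finset.mem_Icc.2 h)
      · rfl
    rw [← this]
    exact hy' p q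
  · apply isOpen_biInter_finset
    intro i _
    have hc : Continuous fun y : Sq => y i := continuous_apply i
    exact (isOpen_discrete {x i}).preimage hc
  · simp

end Pool.Agent.Lib.MP_bdee7b_an.Sep
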