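import Pool.Agent.Lib.MP_bdee7b_an.SepTrace
import Pool.Agent.Lib.MP_bdee7b_an.Main

namespace Pool.Agent.Lib.MP_bdee7b_an.Sep

open Filter Topology Finset

section core

variable {X : Type} [MetricSpace X] [CompactSpace X] {e : X → Sq} {f : X → X}

lemma exists_sep (hc : Continuous e) :
    ∃ c > 0, ∀ a b : X, dist a b < c → e a 0 = e b 0 := by
  have h0 : Continuous fun y : Sq => y 0 := continuous_apply 0
  have h1 : Continuous fun a : X => (((e a 0 : Fin 3) : ℕ) : ℝ) :=
    (continuous_of_discreteTopology (f := fun u : Fin 3 => ((u : ℕ) : ℝ))).comp (h0.comp hc)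
  obtain ⟨c, hc0, h⟩ := Metric.uniformContinuous_iff.1
    (CompactSpace.uniformContinuous_of_continuous h1) 1 one_pos
  refine ⟨c, hc0, fun a b hab => ?_⟩
  have h2 := h hab
  rw [Real.dist_eq, abs_lt] at h2
  have h3 : ((e a 0 : Fin 3) : ℕ) < ((e b 0 : Fin 3) : ℕ) + 1 := by
    have : (((e a 0 : Fin 3) : ℕ) : ℝ) < ((e b 0 : Fin 3) : ℕ) + 1 := by linarith [h2.2]
    exact_mod_cast this
  have h4 : ((e b 0 : Fin 3) : ℕ) < ((e a 0 : Fin 3) : ℕ) + 1 := by
    have : (((e b 0 : Fin 3) : ℕ) : ℝ) < ((e a 0 : Fin 3) : ℕ) + 1 := by linarith [h2.1]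
    exact_mod_cast this
  exact Fin.ext (by omega)

lemma exists_rad (hc : Continuous e) (hinj : Function.Injective e) {η : ℝ} (hη : 0 < η) :
    ∃ r : ℕ, ∀ a b : X, (∀ s : ℤ, |s| ≤ r → e a s = e b s) → dist a b < η := by
  by_contra hcon
  push Not at hcon
  let K : ℕ → Set (X × X) := fun r =>
    {u | η ≤ dist u.1 u.2} ∩ ⋂ s ∈ {s : ℤ | |s| ≤ r}, {u | e u.1 s = e u.2 s}
  have hcl : ∀ r, IsClosed (K r) := by
    intro r
    refine (isClosed_le continuous_const (continuous_fst.dist continuous_snd)).inter ?_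
    refine isClosed_biInter fun s _ => ?_
    have h0 : Continuous fun y : Sq => y s := continuous_apply s
    exact isClosed_eq (h0.comp (hc.comp continuous_fst)) (h0.comp (hc.comp continuous_snd))
  have hne : ∀ r, (K r).Nonempty := by
    intro r
    obtain ⟨a, b, h1, h2⟩ := hcon r
    refine ⟨(a, b), h2, ?_⟩
    simp only [Set.mem_iInter]
    exact fun s hs => h1 s hs
  have hdec : ∀ r, K (r + 1) ⊆ K r := by
    rintro r u ⟨h1, h2⟩
    refine ⟨h1, ?_⟩
    simp only [Set.mem_iInter, Set.mem_ofPred_eq] at h2 ⊢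
    intro s hs
    exact h2 s (by push_cast; omega)
  obtain ⟨u, hu⟩ := IsCompact.nonempty_iInter_of_sequence_nonempty_isCompact_isClosed K hdec hne
    (hcl 0).isCompact hcl
  rw [Set.mem_iInter] at hu
  have h1 : u.1 = u.2 := by
    apply hinj
    funext s
    have := (hu s.natAbs).2
    simp only [Set.mem_iInter, Set.mem_ofPred_eq] at this
    exact this s (by simp)
  have h2 := (hu 0).1
  simp only [Set.mem_ofPred_eq, h1, dist_self] at h2
  linarith

omit [MetricSpace X] [CompactSpace X] in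
lemma e_iter (hf : ∀ a, e (f a) = sh 1 (e a)) (i : ℕ) (a : X) (s : ℤ) :
    e (f^[i] a) s = e a (s + i) := by
  induction i generalizing s with
  | zero => simp
  | succ i ih =>
    rw [Function.iterate_succ_apply', hf, sh, ih]
    congr 1
    push_cast
    ring

open Classical in
lemma sum_ind (P : ℤ → Prop) (t : ℤ) (n : ℕ) :
    (∑ i ∈ range n, if P (t + i) then (1 : ℝ) else 0) = wc P t n := by
  unfold wc
  rw [card_filter]
  push_cast
  rfl

theorem avgShadowing_core (hc : Continuous e) (hinj : Function.Injective e)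
    (hr : Set.range e = XS) (hfc : Continuous f) (hf : ∀ a, e (f a) = sh 1 (e a)) :
    AvgShadowing f := by
  classical
  intro ε hε
  obtain ⟨D, hD0, hD⟩ := exists_bound X
  obtain ⟨r, hrad⟩ := exists_rad hc hinj (η := ε / 8) (by positivity)
  obtain ⟨m, hm⟩ := pow_unbounded_of_one_lt (D * (2 * r + 1) * 8 / ε) (one_lt_two (α := ℝ))
  obtain ⟨L, hL⟩ : ∃ L, L = NN (m + 1) := ⟨_, rfl⟩
  have hL0 : 0 < L := hL ▸ NN_pos _
  have hLr : (0 : ℝ) < L := by exact_mod_cast hL0
  obtain ⟨C, hC, htr⟩ := trace_le hfc L (η := ε / 8) (by positivity)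
  refine ⟨ε / 8 / (C * L), by positivity, fun x ⟨N, hN⟩ => ?_⟩
  obtain ⟨w, z, hz, hzb⟩ := glue (fun k => e (x (L * k.toNat)))
    (fun k => hr ▸ Set.mem_range_self _) m
  obtain ⟨ζ, hζ⟩ : z ∈ Set.range e := hr ▸ hz
  refine ⟨ζ, ?_⟩
  set Bad : ℤ → Prop := fun s => Pat (m + 1) w s ∨ s % (NN (m + 1)) < GG (m + 1) with hBad
  have h1 : ∀ i : ℕ, dist (f^[i] ζ) (x i) ≤ ε / 8 +
      D * (∑ s ∈ Icc (-(r : ℤ)) r, if Bad (s + i) then (1 : ℝ) else 0) +
      (ε / 8 + C * ∑ t ∈ range (i % L),
        dist (f (x (L * (i / L) + t))) (x (L * (i / L) + t + 1))) := by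
    intro i
    have a1 := htr (i % L) (Nat.mod_lt i hL0) (fun t => x (L * (i / L) + t))
    simp only [add_zero, Nat.div_add_mod] at a1
    refine (dist_triangle _ (f^[i % L] (x (L * (i / L)))) _).trans (add_le_add ?_ a1)
    have hnn : ∀ s ∈ Icc (-(r : ℤ)) r, (0 : ℝ) ≤ if Bad (s + i) then (1 : ℝ) else 0 := by
      intro s _; split_ifs <;> norm_num
    by_cases hb : ∃ s : ℤ, |s| ≤ r ∧ Bad (i + s)
    · obtain ⟨s, s1, s2⟩ := hb
      have a2 := single_le_sum hnn (mem_Icc.2 (abs_le.1 s1))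
      rw [if_pos (by rwa [add_comm])] at a2
      have := hD (f^[i] ζ) (f^[i % L] (x (L * (i / L))))
      nlinarith
    · push Not at hb
      have a3 : dist (f^[i] ζ) (f^[i % L] (x (L * (i / L)))) < ε / 8 := by
        apply hrad
        intro s hs
        rw [e_iter hf, e_iter hf, hζ, add_comm, hzb i r hb s hs, ← hL]
        have e1 : ((i : ℤ) / (L : ℤ)).toNat = i / L := by
          rw [← Int.natCast_ediv, Int.toNat_natCast]
        simp only [e1]
        congr 1
        push_cast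
        ring
      have := mul_nonneg hD0.le (sum_nonneg hnn)
      linarith
  unfold ShadowsInAvg
  have hco : IsCoboundedUnder (· ≤ ·) atTop (avg fun i => dist (f^[i] ζ) (x i)) :=
    isCoboundedUnder_le_of_le atTop (x := 0) fun n => avg_nonneg (fun i => dist_nonneg) n
  refine lt_of_le_of_lt (limsup_le_of_le hco (a := 3 * ε / 4) ?_) (by linarith)
  obtain ⟨M, hM⟩ := exists_nat_gt (D * (2 * r + 1) * (2 * GG (m + 1)) * 8 / ε)
  filter_upwards [eventually_ge_atTop N, eventually_ge_atTop M] with n hnN hnM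
  apply avg_le_of_sum_le (by positivity)
  refine (sum_le_sum fun i _ => h1 i).trans ?_
  rw [sum_add_distrib, sum_add_distrib, sum_add_distrib, ← mul_sum, ← mul_sum, sum_comm]
  simp only [sum_const, card_range, nsmul_eq_mul]
  have hn0 : (0 : ℝ) ≤ n := by positivity
  have b1 := sum_window_le (e := fun i => dist (f (x i)) (x (i + 1))) (fun i => dist_nonneg) hL0 n
  rw [sum_eq_mul_avg (fun i => dist (f (x i)) (x (i + 1)))] at b1
  have b2 := hN n hnN 0
  simp only [add_zero] at b2
  have b3 : C * (L * (n * avg (fun i => dist (f (x i)) (x (i + 1))) n)) ≤ n * (ε / 8) := by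
    have : C * L * avg (fun i => dist (f (x i)) (x (i + 1))) n ≤ ε / 8 := by
      calc _ ≤ C * L * (ε / 8 / (C * L)) := mul_le_mul_of_nonneg_left b2.le (by positivity)
        _ = ε / 8 := by field_simp
    nlinarith
  have b4 := mul_le_mul_of_nonneg_left b1 hC.le
  have b5 : ∀ s ∈ Icc (-(r : ℤ)) r, (∑ i ∈ range n, if Bad (s + i) then (1 : ℝ) else 0) ≤
      n / 2 ^ m + 2 * GG (m + 1) := by
    intro s _
    have c1 := bad_le w (m + 1) s n
    have c2 : (2 : ℝ) ^ (m + 1) * wc Bad s n ≤ 2 * n + 2 ^ (m + 1) * (2 * GG (m + 1)) := by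
      exact_mod_cast c1
    have c3 := sum_ind Bad s n
    have c4 : (wc Bad s n : ℝ) ≤ n / 2 ^ m + 2 * GG (m + 1) := by
      rw [div_add' _ _ _ (by positivity), le_div_iff₀ (by positivity)]
      rw [pow_succ] at c2
      linarith
    refine le_trans (le_of_eq ?_) c4
    rw [← c3]
    exact sum_congr rfl fun i _ => by split_ifs <;> rfl
  have b6 := sum_le_sum b5
  simp only [sum_const, Int.card_Icc, nsmul_eq_mul] at b6
  have b7 : (((r : ℤ) + 1 - -(r : ℤ)).toNat : ℝ) = 2 * r + 1 := by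
    have : ((r : ℤ) + 1 - -(r : ℤ)).toNat = 2 * r + 1 := by omega
    rw [this]; push_cast; ring
  rw [b7] at b6
  have b8 := mul_le_mul_of_nonneg_left b6 hD0.le
  have b9 : D * (2 * r + 1) * (n / 2 ^ m) ≤ n * (ε / 8) := by
    rw [div_lt_iff₀ hε] at hm
    have : D * (2 * r + 1) / 2 ^ m ≤ ε / 8 := by
      rw [div_le_iff₀ (by positivity)]; linarith
    calc D * (2 * r + 1) * (n / 2 ^ m) = n * (D * (2 * r + 1) / 2 ^ m) := by ring
      _ ≤ n * (ε / 8) := mul_le_mul_of_nonneg_left this hn0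
  have b10 : D * (2 * r + 1) * (2 * GG (m + 1)) ≤ n * (ε / 8) := by
    rw [div_lt_iff₀ hε] at hM
    have : (M : ℝ) ≤ n := by exact_mod_cast hnM
    nlinarith
  nlinarith

lemma jumps_le (n : ℕ) : ((range n).filter (fun i => Nat.log 16 (i + 1) ≠ Nat.log 16 i)).card ≤
    Nat.log 16 n := by
  induction n with
  | zero => simp
  | succ n ih =>
    have := Nat.log_mono_right (b := 16) (Nat.le_succ n)
    rw [range_add_one, filter_insert]
    split_ifs with h
    · rw [card_insert_of_notMem (by simp)]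
      change Nat.log 16 n ≤ Nat.log 16 (n + 1) at this
      omega
    · exact ih.trans this

lemma sq_le_pow (k : ℕ) : k ^ 2 ≤ 16 ^ k := by
  have h1 : k ≤ 4 ^ k := (Nat.lt_pow_self (by norm_num)).le
  calc k ^ 2 ≤ (4 ^ k) ^ 2 := Nat.pow_le_pow_left h1 2
    _ = 16 ^ k := by rw [← pow_mul, mul_comm, pow_mul]; norm_num

theorem not_asymp_core (hc : Continuous e) (hinj : Function.Injective e)
    (hr : Set.range e = XS) (hf : ∀ a, e (f a) = sh 1 (e a)) : ¬ AsympAvgShadowing f := by
  classical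
  intro h
  obtain ⟨D, hD0, hD⟩ := exists_bound X
  have hpt : ∀ j : ℕ, ∃ a : X, e a = fun _ => sy j := fun j =>
    (hr ▸ const_mem j : (fun _ => sy j : Sq) ∈ Set.range e)
  choose pt hpt using hpt
  have hfix : ∀ j, f (pt j) = pt j := fun j => hinj (by rw [hf, hpt]; rfl)
  obtain ⟨z, hz⟩ := h (fun i => pt (Nat.log 16 i + 1)) (by
    apply tendsto_zero_of_le (avg_nonneg fun i => dist_nonneg)
    intro ε hε
    obtain ⟨M, hM⟩ := exists_nat_gt ((D / ε) ^ 2)
    filter_upwards [eventually_ge_atTop M, eventually_gt_atTop 0] with n hn hn0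
    apply avg_le_of_sum_le hε.le
    have h1 : ∀ i ∈ range n, dist (f (pt (Nat.log 16 i + 1))) (pt (Nat.log 16 (i + 1) + 1)) ≤
        D * if Nat.log 16 (i + 1) ≠ Nat.log 16 i then (1 : ℝ) else 0 := by
      intro i _
      split_ifs with hi
      · simpa using hD _ _
      · rw [not_not.1 hi, hfix]; simp
    refine (sum_le_sum h1).trans ?_
    rw [← mul_sum, ← sum_filter, sum_const, nsmul_eq_mul, mul_one]
    have h2 : (((range n).filter (fun i => Nat.log 16 (i + 1) ≠ Nat.log 16 i)).card : ℝ) ≤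
        Nat.log 16 n := by exact_mod_cast jumps_le n
    have h3 : ((Nat.log 16 n : ℕ) : ℝ) ^ 2 ≤ n := by
      exact_mod_cast (sq_le_pow _).trans (Nat.pow_log_le_self 16 hn0.ne')
    have h4 : (M : ℝ) ≤ n := by exact_mod_cast hn
    have h5 : D ^ 2 ≤ n * ε ^ 2 := by
      rw [div_pow, div_lt_iff₀ (by positivity)] at hM
      nlinarith [sq_nonneg ε]
    have h6 : D * Nat.log 16 n ≤ n * ε := by
      apply le_of_sq_le_sq _ (by positivity)
      rw [mul_pow, mul_pow]
      calc D ^ 2 * ((Nat.log 16 n : ℕ) : ℝ) ^ 2 ≤ (n * ε ^ 2) * n :=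
            mul_le_mul h5 h3 (by positivity) (by positivity)
        _ = n ^ 2 * ε ^ 2 := by ring
    exact (mul_le_mul_of_nonneg_left h2 hD0.le).trans h6)
  obtain ⟨c, hc0, hsep⟩ := exists_sep hc
  apply no_trace (y := e z) (hr ▸ Set.mem_range_self z)
  intro K
  have hev := (tendsto_order.1 hz).2 (c / (K + 1)) (by positivity)
  obtain ⟨n₀, hn₀⟩ := eventually_atTop.1 hev
  refine ⟨n₀, fun n hn => ?_⟩
  have h1 := hn₀ n hn
  have h2 : ∀ i ∈ range n, c * (if e z (0 + i) ≠ xi (0 + i) then (1 : ℝ) else 0) ≤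
      dist (f^[i] z) (pt (Nat.log 16 i + 1)) := by
    intro i _
    split_ifs with hi
    · rw [mul_one]
      by_contra hlt
      apply hi
      have := hsep _ _ (not_le.1 hlt)
      rw [e_iter hf, hpt] at this
      rw [this, xi, zero_add, Int.toNat_natCast]
    · simp
  have h3 := sum_le_sum h2
  rw [← mul_sum, sum_eq_mul_avg (fun i => dist (f^[i] z) (pt (Nat.log 16 i + 1)))] at h3
  have h4 := sum_ind (fun s => e z s ≠ xi s) 0 n
  have h5 : c * (wc (fun s => e z s ≠ xi s) 0 n : ℝ) ≤ n * (c / (K + 1)) := by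
    refine le_trans (le_of_eq ?_) (h3.trans (mul_le_mul_of_nonneg_left h1.le (by positivity)))
    rw [← h4]
    congr 1
    exact sum_congr rfl fun i _ => by split_ifs <;> rfl
  have h6 : (K : ℝ) * (wc (fun s => e z s ≠ xi s) 0 n : ℝ) ≤ n := by
    rw [← mul_div_assoc, le_div_iff₀ (by positivity)] at h5
    have : (0 : ℝ) ≤ (wc (fun s => e z s ≠ xi s) 0 n : ℝ) := by positivity
    nlinarith
  exact_mod_cast h6

end core

lemma continuous_sh (k : ℤ) : Continuous (sh k) :=
  continuous_pi fun i => continuous_apply (i + k)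

/-- The shift homeomorphism of the subshift. -/
def shiftHomeo : XS ≃ₜ XS where
  toFun x := ⟨sh 1 x.1, sh_mem x.2 1⟩
  invFun x := ⟨sh (-1) x.1, sh_mem x.2 (-1)⟩
  left_inv x := by ext i; simp [sh]
  right_inv x := by ext i; simp [sh]
  continuous_toFun := ((continuous_sh 1).comp continuous_subtype_val).subtype_mk _
  continuous_invFun := ((continuous_sh (-1)).comp continuous_subtype_val).subtype_mk _

theorem exists_avg_not_asymp : ∃ (Y : Type) (_ : MetricSpace Y) (_ : CompactSpace Y)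
    (g : Y ≃ₜ Y), AvgShadowing g ∧ ¬ AsympAvgShadowing g := by
  let _ : MetricSpace XS := TopologicalSpace.metrizableSpaceMetric XS
  have : CompactSpace XS := isCompact_iff_compactSpace.1 isClosed_XS.isCompact
  refine ⟨XS, inferInstance, inferInstance, shiftHomeo, ?_, ?_⟩
  · exact avgShadowing_core (e := Subtype.val) continuous_subtype_val Subtype.val_injective
      Subtype.range_val shiftHomeo.continuous (fun _ => rfl)
  · exact not_asymp_core (e := Subtype.val) continuous_subtype_val Subtype.val_injective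
      Subtype.range_val (fun _ => rfl)

end Pool.Agent.Lib.MP_bdee7b_an.Sep
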