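import Pool.Agent.Lib.MP_bdee7b_an.SepCount

namespace Pool.Agent.Lib.MP_bdee7b_an.Sep

open Finset

lemma div_mod_eq {L k i : ℤ} (hL : 0 < L) (h1 : L * k ≤ i) (h2 : i < L * k + L) :
    i / L = k ∧ i % L = i - L * k :=
  (Int.ediv_emod_unique hL).2 ⟨by ring, by omega, by omega⟩

lemma glue (b : ℤ → Sq) (hb : ∀ k, b k ∈ XS) (m : ℕ) : ∃ w z : Sq, z ∈ XS ∧
    ∀ (i : ℤ) (r : ℕ), (∀ s : ℤ, |s| ≤ r →
      ¬ (Pat (m + 1) w (i + s) ∨ (i + s) % (NN (m + 1)) < GG (m + 1))) →
      ∀ s : ℤ, |s| ≤ r → z (i + s) = b (i / NN (m + 1)) (i % NN (m + 1) + s) := by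
  classical
  obtain ⟨L, hLd⟩ : ∃ L : ℤ, L = NN (m + 1) := ⟨_, rfl⟩
  obtain ⟨g, hgd⟩ : ∃ g : ℤ, g = GG (m + 1) := ⟨_, rfl⟩
  have hL : 0 < L := by rw [hLd]; exact_mod_cast NN_pos _
  have hg : 0 < g := by rw [hgd]; exact_mod_cast GG_pos _
  obtain ⟨w, hw⟩ : ∃ w : Sq, ∀ i, w i = if g ≤ i % L then b (i / L) (i % L) else 2 :=
    ⟨fun i => if g ≤ i % L then b (i / L) (i % L) else 2, fun _ => rfl⟩
  obtain ⟨z, hz⟩ : ∃ z : Sq, ∀ i, z i = if Pat (m + 1) w i then 2 else w i :=
    ⟨fun i => if Pat (m + 1) w i then 2 else w i, fun _ => rfl⟩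
  have hzw : Bl z w := by
    intro i; rw [hz]; split_ifs <;> simp
  have hdm : ∀ i : ℤ, L * (i / L) + i % L = i ∧ 0 ≤ i % L ∧ i % L < L := fun i =>
    ⟨Int.mul_ediv_add_emod i L, Int.emod_nonneg i hL.ne', Int.emod_lt_of_pos i hL⟩
  have hwgap : ∀ p q : ℤ, w p ≠ 2 → w q ≠ 2 → p ≤ q → ¬ Gap (GG (m + 1)) w p q →
      q < p + NN (m + 1) ∧ Lev m (cut w p q) := by
    intro p q hp hq hpq hgap
    have hp1 : g ≤ p % L := by
      by_contra h; exact hp (by rw [hw, if_neg h])
    have hq1 : g ≤ q % L := by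
      by_contra h; exact hq (by rw [hw, if_neg h])
    obtain ⟨p1, p2, p3⟩ := hdm p
    obtain ⟨q1, q2, q3⟩ := hdm q
    have hk : L * (q / L) ≤ p := by
      by_contra hlt
      apply hgap
      refine ⟨L * (q / L), by omega, by omega, fun i i1 i2 => ?_⟩
      obtain ⟨_, e2⟩ := div_mod_eq (k := q / L) (i := i) hL i1 (by omega)
      rw [hw, if_neg (by omega)]
    set k := q / L with hkd
    obtain ⟨_, pe⟩ := div_mod_eq (k := k) (i := p) hL hk (by omega)
    have hwi : ∀ i, p ≤ i → i ≤ q → w i = b k (i - L * k) := by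
      intro i i1 i2
      obtain ⟨e1, e2⟩ := div_mod_eq (k := k) (i := i) hL (by omega) (by omega)
      rw [hw, if_pos (by omega), e1, e2]
    refine ⟨by omega, ?_⟩
    have h1 : Lev m (cut (b k) (p - L * k) (q - L * k)) := by
      apply piece_of_mem m (by omega) (hb k)
      · rw [← hwi p le_rfl hpq]; exact hp
      · rw [← hwi q hpq le_rfl]; exact hq
      · rintro ⟨s, s1, s2, s3⟩
        apply hgap
        refine ⟨s + L * k, by omega, by omega, fun i i1 i2 => ?_⟩
        rw [hwi i (by omega) (by omega)]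
        exact s3 _ (by omega) (by omega)
    have h2 : cut w p q = sh (-(L * k)) (cut (b k) (p - L * k) (q - L * k)) := by
      funext i
      simp only [cut, sh]
      by_cases h : p ≤ i ∧ i ≤ q
      · rw [if_pos h, if_pos (by omega), hwi i h.1 h.2, sub_eq_add_neg]
      · rw [if_neg h, if_neg (by omega)]
    rw [h2]
    exact h1.sh _
  refine ⟨w, z, Lev.mem (m := m + 1) (Or.inr ⟨fun p q hp hq hpq hgap => ?_, fun t ht => ?_⟩), ?_⟩
  · obtain ⟨a, c⟩ := hwgap p q (by rw [hzw.eq_of_ne hp]; exact hp)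
      (by rw [hzw.eq_of_ne hq]; exact hq) hpq (fun hg' => hgap (hzw.gap hg'))
    exact ⟨a, c.bl (hzw.cut p q)⟩
  · exact ht.1 (by rw [hz, if_pos (hzw.pat ht)])
  · intro i r h s hs
    rw [← hLd, ← hgd] at h
    rw [← hLd]
    obtain ⟨i1, i2, i3⟩ := hdm i
    have hs' := abs_le.1 hs
    have b1 : 0 ≤ i % L + s := by
      by_contra hlt
      apply h (-(i % L)) (abs_le.2 ⟨by omega, by omega⟩)
      right
      obtain ⟨_, e2⟩ := div_mod_eq (k := i / L) (i := i + -(i % L)) hL (by omega) (by omega)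
      omega
    have b2 : i % L + s < L := by
      by_contra hlt
      apply h (L - i % L) (abs_le.2 ⟨by omega, by omega⟩)
      right
      have e : L * (i / L + 1) = L * (i / L) + L := by ring
      obtain ⟨_, e2⟩ := div_mod_eq (k := i / L + 1) (i := i + (L - i % L)) hL (by omega)
        (by omega)
      omega
    obtain ⟨e1, e2⟩ := div_mod_eq (k := i / L) (i := i + s) hL (by omega) (by omega)
    have h3 := h s hs
    rw [not_or] at h3
    rw [hz, if_neg h3.1, hw, if_pos (by omega), e1, e2]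
    congr 1
    omega

/-- The letter followed at time `i`. -/
def xi (i : ℤ) : Fin 3 := sy (Nat.log 16 i.toNat + 1)

lemma xi_eq {j : ℕ} {i : ℤ} (h1 : ((16 ^ j : ℕ) : ℤ) ≤ i) (h2 : i < ((16 ^ (j + 1) : ℕ) : ℤ)) :
    xi i = sy (j + 1) := by
  unfold xi
  rw [Nat.log_eq_of_pow_le_of_lt_pow (b := 16) (m := j) (n := i.toNat) (by omega) (by omega)]

lemma no_trace {y : Sq} (hy : y ∈ XS)
    (H : ∀ K : ℕ, ∃ n₀ : ℕ, ∀ n ≥ n₀, K * wc (fun s => y s ≠ xi s) 0 n ≤ n) : False := by
  classical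
  set Mis : ℤ → Prop := fun s => y s ≠ xi s with hMis
  have hfree : ∀ t W : ℕ, ∃ p : ℕ, t ≤ p ∧ ∀ i : ℕ, i < W + 1 → y (p + i) ≠ 2 := by
    intro t W
    by_contra hcon
    push Not at hcon
    obtain ⟨n₀, hn₀⟩ := H (2 * (W + 1))
    have h1 : ∀ k : ℕ, k ≤ wc Mis 0 (t + k * (W + 1)) := by
      intro k
      induction k with
      | zero => omega
      | succ k ih =>
        obtain ⟨i, i1, i2⟩ := hcon (t + k * (W + 1)) (by omega)
        have h2 : 0 < wc Mis (0 + ((t + k * (W + 1) : ℕ) : ℤ)) (W + 1) := by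
          apply wc_pos i1
          simp only [hMis, zero_add]
          rw [i2]
          exact (sy_ne _).symm
        rw [Nat.succ_mul, ← add_assoc, wc_add]
        omega
    have h3 := hn₀ (t + (t + n₀ + 1) * (W + 1)) (by nlinarith)
    have h4 := Nat.mul_le_mul_left (2 * (W + 1)) (h1 (t + n₀ + 1))
    nlinarith
  obtain ⟨t, _, ht⟩ := hfree 0 0
  have ht2 : y t ≠ 2 := by simpa using ht 0 (by omega)
  obtain ⟨n₀, hn₀⟩ := H 16
  have hsc : ∀ j, t + n₀ ≤ j → Sc (j + 1) y t := by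
    intro j hj
    have hpow : j < 16 ^ j := Nat.lt_pow_self (by norm_num)
    obtain ⟨T, hT⟩ : ∃ T, T = 16 ^ j := ⟨_, rfl⟩
    have e16 : 16 ^ (j + 1) = 16 * T := by rw [pow_succ, hT]; ring
    unfold Sc
    rw [cnt_eq_wc, e16]
    set A : ℤ → Prop := fun s => y s = sy (j + 1) with hA
    have h1 := hn₀ (16 * T) (by omega)
    have h2 : 15 * T ≤ wc A T (15 * T) + wc Mis T (15 * T) := by
      apply wc_cover
      intro i hi
      have : xi (T + i) = sy (j + 1) := xi_eq (by rw [← hT]; omega) (by rw [e16]; omega)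
      simp only [hA, hMis, this]
      exact em _
    have h3 : wc Mis 0 (T + 15 * T) = wc Mis 0 T + wc Mis T (15 * T) := by
      rw [wc_add, zero_add]
    have h4 : wc A t ((T - t) + 15 * T) = wc A t (T - t) + wc A T (15 * T) := by
      rw [wc_add]
      congr 2
      omega
    have h5 : wc A t ((T - t) + 15 * T) ≤ wc A t (16 * T) := wc_mono_len _ _ (by omega)
    rw [show T + 15 * T = 16 * T by ring] at h3
    omega
  have hocc : ∀ j, t + n₀ ≤ j → ∃ a : ℕ, y (t + a) = sy (j + 1) := by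
    intro j hj
    have h1 := hsc j hj
    unfold Sc at h1
    rw [cnt_eq_wc] at h1
    have h2 : 0 < 16 ^ (j + 1) := by positivity
    obtain ⟨a, _, ha⟩ := exists_of_wc_pos (P := fun s => y s = sy (j + 1)) (t := t)
      (n := 16 ^ (j + 1)) (by omega)
    exact ⟨a, ha⟩
  obtain ⟨a, ha⟩ := hocc (2 * (t + n₀)) (by omega)
  obtain ⟨c, hc⟩ := hocc (2 * (t + n₀) + 1) (by omega)
  have ha1 : y (t + a) = 1 := by rw [ha, sy, if_neg (by omega)]
  have hc0 : y (t + c) = 0 := by rw [hc, sy, if_pos (by omega)]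
  obtain ⟨p, hp1, hp2⟩ := hfree (t + a + c) (NN (t + n₀))
  obtain ⟨q, hq⟩ : ∃ q : ℤ, q = p + NN (t + n₀) := ⟨_, rfl⟩
  have hq2 : y q ≠ 2 := by rw [hq]; exact hp2 _ (by omega)
  have htq : (t : ℤ) ≤ q := by omega
  have key : ∀ m, ¬ Lev m (cut y t q) := by
    intro m
    induction m with
    | zero =>
      intro h
      exact h ⟨⟨t + c, by rw [cut_apply (by omega) (by omega), hc0]⟩, t + a, by
        rw [cut_apply (by omega) (by omega), ha1]⟩
    | succ m ih =>
      rintro (h | ⟨h1, h2⟩)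
      · exact ih h
      have vq : cut y t q q ≠ 2 := by rw [cut_apply htq le_rfl]; exact hq2
      have vt : cut y t q t ≠ 2 := by rw [cut_apply le_rfl htq]; exact ht2
      by_cases hm : m + 1 ≤ t + n₀
      · have h3 := (h1 p q (by
          rw [cut_apply (by omega) (by omega)]; simpa using hp2 0 (by omega)) vq (by omega)
          (fun hg => by
            obtain ⟨s, s1, s2, s3⟩ := gap_cut (by omega) le_rfl hg
            have g0 := GG_pos (m + 1)
            apply hp2 (s - p).toNat (by omega)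
            rw [show (p : ℤ) + ((s - p).toNat : ℕ) = s by omega]
            exact s3 s le_rfl (by omega))).1
        have h4 := NN_mono hm
        omega
      · have hgap : Gap (GG (m + 1)) (cut y t q) t q := by
          by_contra hg
          have := (h1 t q vt vq htq hg).2
          rw [cut_cut] at this
          exact ih this
        obtain ⟨s, s1, s2, _⟩ := hgap
        apply h2 t
        refine ⟨vt, fun j j1 j2 => ?_⟩
        obtain ⟨j, rfl⟩ : ∃ j', j = j' + 1 := ⟨j - 1, by omega⟩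
        have h5 := hsc j (by omega)
        have h6 : 16 ^ (j + 1) ≤ GG (m + 1) := Nat.pow_le_pow_right (by norm_num) j2
        unfold Sc at h5 ⊢
        rw [cnt_eq_wc] at h5 ⊢
        refine h5.trans (Nat.mul_le_mul_left _ (wc_mono _ _ fun i hi hy' => ?_))
        rw [cut_apply (by omega) (by omega)]
        exact hy'
  obtain ⟨m, hm⟩ := hy t q
  exact key m hm

end Pool.Agent.Lib.MP_bdee7b_an.Sep
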